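import Pool.Agent.H211.AD.Stm

set_option autoImplicit false

open Metric Set MeasureTheory Filter Topology

namespace Pool.Agent.H980.AD211

open Pool.Agent.H211.AD

lemma E_mono (f : ℂ → ℂ) (U K : Set ℂ) {δ δ' : ℝ} (h : δ ≤ δ') (n : ℕ) :
    E f U K δ n ⊆ E f U K δ' n :=
  fun _ hz => ⟨hz.1, cthickening_mono h K hz.2⟩

lemma E_shift (f : ℂ → ℂ) (U K : Set ℂ) (δ : ℝ) (n T : ℕ) {z : ℂ}
    (hz : z ∈ E f U K δ (n + T)) : f^[n] z ∈ E f U K δ T := by
  constructor
  · intro i hi
    rw [← Function.iterate_add_apply]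
    exact hz.1 _ (by omega)
  · rw [← Function.iterate_add_apply, Nat.add_comm]
    exact hz.2

theorem t_R2 (hHIT : S_HIT) (hMEAS : S_MEAS) : S_R2 := by
  intro f U K Cr ℓ δ₀ Cp rp c₀ μ hS hK κ hκμ hκ1
  have hμ1 := hS.μ_gt
  have hμ0 : 0 < μ := by linarith
  have hκ0 : 0 < κ := by
    by_contra h
    push Not at h
    nlinarith
  have hCp := hS.Cp_ge
  have hCp0 : 0 < Cp := by linarith
  have hc0 := hS.c₀_pos
  obtain ⟨Ch, hCh, hH⟩ := hHIT f U K Cr ℓ δ₀ Cp rp c₀ μ hS (κ * μ) hκμ (by nlinarith)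
  obtain ⟨Cm, hCm, hM⟩ := hMEAS
  obtain ⟨δb, hδb, hback⟩ := hS.back 1 one_pos
  refine ⟨min δ₀ (min rp δb), lt_min hS.δ₀_pos (lt_min hS.rp_pos hδb), ?_⟩
  intro δ hδ hδle
  have hδ0 : δ ≤ δ₀ := hδle.trans (min_le_left _ _)
  have hδr : δ ≤ rp := hδle.trans ((min_le_right _ _).trans (min_le_left _ _))
  have hδb' : δ ≤ δb := hδle.trans ((min_le_right _ _).trans (min_le_right _ _))
  have hfin : ∀ n, volume (E f U K δ n) ≠ ⊤ := by
    intro n
    have h1 : E f U K δ n ⊆ cthickening 1 K := (E_mono f U K hδb' n).trans (hback n)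
    have h2 : Bornology.IsBounded (cthickening 1 K) := hS.cpt.isBounded.cthickening
    exact ((measure_mono h1).trans_lt h2.measure_lt_top).ne
  have hX0 : 0 < Cp * Ch / c₀ := by positivity
  refine ⟨2 * (Cp * Ch / c₀) + 1, by linarith, ?_⟩
  intro C hC
  obtain ⟨R', hR', hH'⟩ := hH δ hδ
  have hmin : 0 < min R' δ := lt_min hR' hδ
  refine ⟨min R' δ / 4, by positivity, ?_⟩
  intro ϱ hϱ hϱle ε hε
  have hϱR : ϱ ≤ R' := by
    have := min_le_left R' δ
    linarith
  have hϱδ : 4 * ϱ ≤ δ := by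
    have := min_le_right R' δ
    linarith
  have hcomp : IsCompact (cthickening ϱ K) := hS.cpt.cthickening
  obtain ⟨t', htsub, htfin, htcov⟩ := hcomp.finite_cover_balls (e := ϱ / 16) (by positivity)
  obtain ⟨t, rfl⟩ : ∃ t : Finset ℂ, (t : Set ℂ) = t' := ⟨htfin.toFinset, by simp⟩
  set A := ENNReal.ofReal (Cm / (ϱ / 2) ^ 2) with hA
  have htend : Tendsto (fun r => volume (cthickening r K)) (𝓝 0) (𝓝 (volume K)) :=
    tendsto_measure_cthickening_of_isCompact hS.cpt
  rw [hK] at htend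
  have htend2 : Tendsto (fun r => (t.card : ENNReal) * (A * volume (cthickening r K))) (𝓝 0)
      (𝓝 ((t.card : ENNReal) * (A * 0))) := by
    refine ENNReal.Tendsto.const_mul ?_ (Or.inr (ENNReal.natCast_ne_top _))
    exact ENNReal.Tendsto.const_mul htend (Or.inr ENNReal.ofReal_ne_top)
  obtain ⟨ε', hε'pos, hε'⟩ : ∃ ε' > 0,
      (t.card : ENNReal) * (A * volume (cthickening ε' K)) ≤ ENNReal.ofReal ε := by
    have h0 : (t.card : ENNReal) * (A * 0) < ENNReal.ofReal ε := by
      simpa using hε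
    have hev := (tendsto_order.1 htend2).2 _ h0
    obtain ⟨r, hr, hr'⟩ := Metric.eventually_nhds_iff.1 hev
    refine ⟨r / 2, by positivity, (hr' ?_).le⟩
    rw [Real.dist_eq, sub_zero, abs_of_pos (by positivity)]
    linarith
  obtain ⟨T₁, hT₁⟩ := hS.late ϱ hϱ
  obtain ⟨T₂, hT₂⟩ := hS.late ε' hε'pos
  refine ⟨max T₁ T₂, ?_⟩
  intro n
  set T := max T₁ T₂ with hT
  have hTϱ : E f U K δ T ⊆ cthickening ϱ K :=
    (E_mono f U K hδ0 T).trans (hT₁ T (le_max_left _ _))
  have hTε : E f U K δ T ⊆ cthickening ε' K :=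
    (E_mono f U K hδ0 T).trans (hT₂ T (le_max_right _ _))
  let X : ℂ → Set ℂ := fun y => {z | z ∈ E f U K δ (n + T) ∧ f^[n] z ∈ ball y (ϱ / 16) ∧
    ∃ g, IsBr f U n (f^[n] z) ϱ g ∧ g (f^[n] z) = z}
  let P : ℕ → ℂ → Set ℂ := fun j c => {z | z ∈ E f U K δ (n - (j + 1)) ∧
    ‖f^[n - (j + 1)] z - c‖ < (C * κ ^ j * ϱ) ^ (1 / (ℓ c : ℝ))}
  have hcov : E f U K δ (n + T) ⊆
      (⋃ y ∈ t, X y) ∪ ⋃ j ∈ Finset.range n, ⋃ c ∈ Cr, P j c := by
    intro z hz
    have hzU : ∀ i < n, f^[i] z ∈ U := fun i hi => hz.1 i (by omega)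
    have hw : f^[n] z ∈ E f U K δ T := E_shift f U K δ n T hz
    have hwϱ : f^[n] z ∈ cthickening ϱ K := hTϱ hw
    rcases hH' n z ϱ hϱ hϱR hzU (cthickening_mono hϱR K hwϱ) with h | h
    · left
      have := htcov hwϱ
      simp only [mem_iUnion, exists_prop] at this ⊢
      obtain ⟨y, hy, hyw⟩ := this
      exact ⟨y, hy, hz, hyw, h⟩
    · right
      obtain ⟨j, hj, c, hc, -, ⟨h1, h2⟩, -⟩ := h
      simp only [mem_iUnion, exists_prop, Finset.mem_range]
      refine ⟨j, hj, c, hc, ⟨⟨fun i hi => hzU i (by omega), ?_⟩, ?_⟩⟩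
      · refine mem_cthickening_of_dist_le _ c δ K (hS.critK c hc) ?_
        rw [dist_eq_norm]
        exact h1.le
      · have hl := hS.loc c hc (f^[n - (j + 1)] z) (h1.le.trans hδr)
        have hit : f (f^[n - (j + 1)] z) = f^[n - j] z := by
          rw [← Function.iterate_succ_apply' f (n - (j + 1)) z]
          have h9 : (n - (j + 1)).succ = n - j := by omega
          rw [h9]
        rw [hit] at hl
        have hce := hS.ce c hc j
        have hpos : 0 < c₀ * μ ^ j := by positivity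
        have h3 : Ch * (κ * μ) ^ j * ϱ / ‖deriv f^[j] (f c)‖ ≤ Ch / c₀ * κ ^ j * ϱ := by
          calc Ch * (κ * μ) ^ j * ϱ / ‖deriv f^[j] (f c)‖
              ≤ Ch * (κ * μ) ^ j * ϱ / (c₀ * μ ^ j) := by
                apply div_le_div_of_nonneg_left _ hpos hce
                positivity
            _ = Ch / c₀ * κ ^ j * ϱ := by
                rw [mul_pow]
                field_simp
        have h4 : ‖f^[n - (j + 1)] z - c‖ ^ ℓ c ≤ Cp * (Ch / c₀ * κ ^ j * ϱ) :=
          hl.2.2.1.trans (mul_le_mul_of_nonneg_left (h2.trans h3) hCp0.le)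
        have h5 : Cp * (Ch / c₀ * κ ^ j * ϱ) < C * κ ^ j * ϱ := by
          have h6 : 0 < κ ^ j * ϱ := by positivity
          have h7 : Cp * Ch / c₀ < C := by linarith
          calc Cp * (Ch / c₀ * κ ^ j * ϱ) = (Cp * Ch / c₀) * (κ ^ j * ϱ) := by ring
            _ < C * (κ ^ j * ϱ) := mul_lt_mul_of_pos_right h7 h6
            _ = C * κ ^ j * ϱ := by ring
        have hℓ : ℓ c ≠ 0 := by
          have := hS.deg c hc
          omega
        have h8 : ‖f^[n - (j + 1)] z - c‖ = (‖f^[n - (j + 1)] z - c‖ ^ ℓ c) ^ (1 / (ℓ c : ℝ)) := by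
          rw [one_div, Real.pow_rpow_inv_natCast (norm_nonneg _) hℓ]
        rw [h8]
        apply Real.rpow_lt_rpow (by positivity) (h4.trans_lt h5)
        have : 0 < (ℓ c : ℝ) := by
          exact_mod_cast Nat.pos_of_ne_zero hℓ
        positivity
  have hXm : ∀ y ∈ t, volume (X y) ≤
      A * volume (cthickening ε' K) * volume (E f U K δ n) := by
    intro y hy
    have hyK : y ∈ cthickening ϱ K := htsub hy
    have h1 : volume (X y) ≤ A * volume (closedBall y (ϱ / 8) ∩ E f U K δ T) *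
        volume (E f U K δ n) := by
      refine hM f U hS.openU hS.diff n y (ϱ / 2) (by positivity) _ _ _ ?_ ?_
      · intro x hx
        have : ϱ / 2 / 4 = ϱ / 8 := by ring
        rw [this]
        exact hx.1
      · rintro z ⟨hz, hzy, g, hg, hgz⟩
        have hsub : ball y (ϱ / 2) ⊆ ball (f^[n] z) ϱ := by
          apply ball_subset_ball'
          rw [mem_ball, dist_comm] at hzy
          linarith
        refine ⟨g, ⟨hg.1.mono hsub, fun x hx => hg.2 x (hsub hx)⟩, ⟨f^[n] z, ⟨?_, ?_⟩, hgz⟩, ?_⟩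
        · rw [mem_ball] at hzy
          rw [mem_closedBall]
          linarith
        · exact E_shift f U K δ n T hz
        · rintro _ ⟨x, hx, rfl⟩
          have h2 := hg.2 x (hsub hx)
          refine ⟨h2.1, ?_⟩
          rw [h2.2]
          rw [mem_ball] at hx
          obtain ⟨k, hk, hky⟩ : ∃ k ∈ K, dist y k ≤ ϱ := by
            have h3 := (hS.cpt.cthickening_eq_biUnion_closedBall hϱ.le).subset hyK
            simp only [mem_iUnion, mem_closedBall, exists_prop] at h3
            exact h3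
          refine mem_cthickening_of_dist_le _ k δ K hk ?_
          calc dist x k ≤ dist x y + dist y k := dist_triangle _ _ _
            _ ≤ δ := by linarith
    refine h1.trans ?_
    gcongr
    exact inter_subset_right.trans hTε
  have hPfin : ∀ j c, volume (P j c) ≠ ⊤ := fun j c =>
    ((measure_mono (fun z hz => hz.1)).trans_lt (lt_top_iff_ne_top.2 (hfin (n - (j + 1))))).ne
  have h1 : volume (E f U K δ (n + T)) ≤ ENNReal.ofReal ε * volume (E f U K δ n) +
      ∑ j ∈ Finset.range n, ∑ c ∈ Cr, volume (P j c) := by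
    calc volume (E f U K δ (n + T))
        ≤ volume ((⋃ y ∈ t, X y) ∪ ⋃ j ∈ Finset.range n, ⋃ c ∈ Cr, P j c) := measure_mono hcov
      _ ≤ volume (⋃ y ∈ t, X y) + volume (⋃ j ∈ Finset.range n, ⋃ c ∈ Cr, P j c) :=
          measure_union_le _ _
      _ ≤ (∑ y ∈ t, volume (X y)) + ∑ j ∈ Finset.range n, ∑ c ∈ Cr, volume (P j c) := by
          refine add_le_add (measure_biUnion_finset_le _ _) ?_
          refine (measure_biUnion_finset_le _ _).trans (Finset.sum_le_sum fun j _ => ?_)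
          exact measure_biUnion_finset_le _ _
      _ ≤ _ := by
          refine add_le_add_left ?_ _
          calc ∑ y ∈ t, volume (X y)
              ≤ ∑ y ∈ t, A * volume (cthickening ε' K) * volume (E f U K δ n) :=
                Finset.sum_le_sum hXm
            _ = ((t.card : ENNReal) * (A * volume (cthickening ε' K))) *
                  volume (E f U K δ n) := by
                rw [Finset.sum_const, nsmul_eq_mul, ← mul_assoc]
            _ ≤ ENNReal.ofReal ε * volume (E f U K δ n) := by gcongr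
  have hsumfin : ∑ j ∈ Finset.range n, ∑ c ∈ Cr, volume (P j c) ≠ ⊤ :=
    ENNReal.sum_ne_top.2 fun j _ => ENNReal.sum_ne_top.2 fun c _ => hPfin j c
  have h2 := ENNReal.toReal_mono (ENNReal.add_ne_top.2
    ⟨ENNReal.mul_ne_top ENNReal.ofReal_ne_top (hfin n), hsumfin⟩) h1
  rw [ENNReal.toReal_add (ENNReal.mul_ne_top ENNReal.ofReal_ne_top (hfin n)) hsumfin,
    ENNReal.toReal_mul, ENNReal.toReal_ofReal hε.le, ENNReal.toReal_sum
      (fun j _ => ENNReal.sum_ne_top.2 fun c _ => hPfin j c)] at h2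
  refine h2.trans (le_of_eq ?_)
  unfold ar
  congr 1
  refine Finset.sum_congr rfl fun j _ => ?_
  rw [ENNReal.toReal_sum (fun c _ => hPfin j c)]
  rfl

end Pool.Agent.H980.AD211
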